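import Mathlib
import Pool.Agent.H2.TokArith

namespace Pool.Agent.Results.MP_f00a0c_co.FiveFourths
open Finset Filter Topology Pool.Agent.H2.TokArith

/-- The 5-cycle `v1 ... v5` (vertices `0, ..., 4`) with the chord `v1 v3`. -/
def house : SimpleGraph (Fin 5) := SimpleGraph.fromRel fun i j => j = i + 1 ∨ (i = 0 ∧ j = 2)

/-- The token graph of a list of placed tokens (newest token first). -/
def tokenGraph {V : Type} (G : SimpleGraph V) (L : List V) : SimpleGraph (Fin L.length) :=
  SimpleGraph.fromRel fun i j => L[i] = L[j] ∨ G.Adj L[i] L[j]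

/-- Algorithm has a strategy `s` using at most `m` colours at width `w`. The colour of a token
is `s` applied to the play up to and including its placement, here `L.drop i`. -/
def Guarantees {V : Type} (G : SimpleGraph V) (w m : ℕ) : Prop :=
  ∃ s : List V → ℕ, ∀ L : List V, (tokenGraph G L).Colorable w →
    (∀ i j, (tokenGraph G L).Adj i j → s (L.drop i) ≠ s (L.drop j)) ∧
    (univ.image fun i : Fin L.length => s (L.drop i)).card ≤ m

/-- The value `f(w, G)` of the token game. -/
noncomputable def f {V : Type} (w : ℕ) (G : SimpleGraph V) : ℕ := sInf {m | Guarantees G w m}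

theorem conf_iff (u v : Fin 5) : conf u v ↔ u = v ∨ house.Adj u v := by
  unfold house; simp only [SimpleGraph.fromRel_adj]; revert u v; decide

def cnt (k : ℕ) (τ : ℕ → Fin 10) (t : Fin 10) : ℕ := ((range (5 * k)).filter fun c => τ c = t).card

def Legal (k : ℕ) (L : List (Fin 5)) : Prop :=
  L.count 0 + L.count 1 + L.count 2 ≤ 4 * k ∧ L.count 0 + L.count 4 ≤ 4 * k ∧
    L.count 3 + L.count 4 ≤ 4 * k ∧ L.count 3 + L.count 2 ≤ 4 * k

def Good (k : ℕ) (L : List (Fin 5)) (τ : ℕ → Fin 10) : Prop :=
  GI k (L.count 0) (L.count 3) (L.count 1) (L.count 4) (L.count 2) (cnt k τ)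

theorem cnt_sum (k : ℕ) (τ : ℕ → Fin 10) : cnt k τ 0 + cnt k τ 1 + cnt k τ 2 + cnt k τ 3 +
    cnt k τ 4 + cnt k τ 5 + cnt k τ 6 + cnt k τ 7 + cnt k τ 8 + cnt k τ 9 = 5 * k := by
  have := card_eq_sum_card_fiberwise (f := τ) (s := range (5 * k)) (t := univ) (by simp)
  rw [card_range] at this
  rw [this]
  simp [Fin.sum_univ_succ, cnt, add_assoc]

theorem cnt_upd {k c : ℕ} (hc : c < 5 * k) (τ : ℕ → Fin 10) (t' : Fin 10) :
    Mv (cnt k τ) (cnt k (Function.update τ c t')) (τ c) t' := by
  intro i
  unfold cnt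
  rw [card_filter, card_filter, ← add_sum_erase _ _ (mem_range.2 hc),
    ← add_sum_erase _ _ (mem_range.2 hc), Function.update_self]
  have : ∑ x ∈ (range (5 * k)).erase c, (if Function.update τ c t' x = i then 1 else 0) =
      ∑ x ∈ (range (5 * k)).erase c, (if τ x = i then 1 else 0) :=
    sum_congr rfl fun x hx => by rw [Function.update_of_ne (ne_of_mem_erase hx)]
  rw [this]
  simp only [@eq_comm _ i]
  omega

theorem GI_congr {k xa xb xc xd xe : ℕ} {n n' : Fin 10 → ℕ} (h : GI k xa xb xc xd xe n)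
    (e : ∀ i, i ≠ 0 → n' i = n i) : GI k xa xb xc xd xe n' := by
  unfold GI at *
  rw [e 1 (by decide), e 2 (by decide), e 3 (by decide), e 4 (by decide), e 5 (by decide),
    e 6 (by decide), e 7 (by decide), e 8 (by decide), e 9 (by decide)]
  exact h

theorem step (k : ℕ) (L : List (Fin 5)) (τ : ℕ → Fin 10) (v : Fin 5) : ∃ c : ℕ, ∃ t' : Fin 10,
    Good k L τ → Legal k (v :: L) →
      c < 5 * k ∧ Tr v (τ c) t' ∧ Good k (v :: L) (Function.update τ c t') := by
  by_cases hg : Good k L τ ∧ Legal k (v :: L)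
  swap
  · exact ⟨0, 0, fun a b => absurd ⟨a, b⟩ hg⟩
  obtain ⟨hg, hl⟩ := hg
  have key0 : ∀ n : Fin 10 → ℕ,
      GI k (L.count 0) (L.count 3) (L.count 1) (L.count 4) (L.count 2) n →
      ∃ t t' : Fin 10, Tr v t t' ∧ t' ≠ 0 ∧ (t.val = 0 ∨ 0 < n t) ∧
      ∀ n', Mv n n' t t' → GI k ((v :: L).count 0) ((v :: L).count 3) ((v :: L).count 1)
        ((v :: L).count 4) ((v :: L).count 2) n' := by
    intro n hg
    fin_cases v
    · simpa [List.count_cons] using stepA hg
    · simpa [List.count_cons] using stepC hg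
    · simpa [List.count_cons] using stepE hg
    · simpa [List.count_cons] using stepB hg
    · simpa [List.count_cons] using stepD hg
  obtain ⟨t, t', h1, h2, h3, h4⟩ := key0 (fun i => if i = 0 then 1 else cnt k τ i)
    (GI_congr hg fun i hi => if_neg hi)
  have hpos : 0 < cnt k τ t := by
    by_cases h0 : t = 0
    · subst h0
      have hb := bound (h4 (fun i => (if i = 0 then 0 else cnt k τ i) + if i = t' then 1 else 0)
        (fun i => by by_cases hi : i = 0 <;> simp [hi, add_comm])) hl.1 hl.2.1 hl.2.2.1 hl.2.2.2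
      have hs := cnt_sum k τ
      fin_cases t' <;> simp at hb h2 <;> omega
    · rcases h3 with h3 | h3
      · exact absurd (Fin.ext h3) h0
      · simpa [h0] using h3
  obtain ⟨c, hc⟩ := card_pos.1 hpos
  rw [mem_filter, mem_range] at hc
  obtain ⟨hc, rfl⟩ := hc
  refine ⟨c, t', fun _ _ => ⟨hc, h1, ?_⟩⟩
  have hm := cnt_upd hc τ t'
  refine GI_congr (h4 (fun i => if i = 0 then (if τ c = 0 then 0 else 1) else
    cnt k (Function.update τ c t') i) fun i => ?_) fun i hi => (if_neg hi).symm
  by_cases hi : i = 0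
  · subst hi
    by_cases h0 : τ c = 0 <;> simp [h0, h2.symm, eq_comm]
  · simpa [hi] using hm i

noncomputable def st (k : ℕ) : List (Fin 5) → ℕ → Fin 10
  | [] => fun _ => 0
  | v :: L => Function.update (st k L) (step k L (st k L) v).choose
      (step k L (st k L) v).choose_spec.choose

noncomputable def sg (k : ℕ) : List (Fin 5) → ℕ
  | [] => 0
  | v :: L => (step k L (st k L) v).choose

theorem legal_suf {k : ℕ} {L M : List (Fin 5)} (h : M <:+ L) (hl : Legal k L) : Legal k M := by
  have := fun v : Fin 5 => h.sublist.count_le v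
  have a0 := this 0; have a1 := this 1; have a2 := this 2; have a3 := this 3; have a4 := this 4
  unfold Legal at *; omega

theorem inv (k : ℕ) (L : List (Fin 5)) (hl : Legal k L) : Good k L (st k L) ∧
    ∀ u M, (u :: M) <:+ L → U (st k L (sg k (u :: M))) u = true := by
  induction L with
  | nil =>
    refine ⟨⟨0, 0, 0, 0, 0, 0, 0, 0, 0, 0, 0, 0, 0, 0, 0, 0, 0, 0, ?_⟩, by simp⟩
    simp [cnt, st]
  | cons v L ih =>
    obtain ⟨h1, h2⟩ := ih (legal_suf (List.suffix_cons v L) hl)
    obtain ⟨_, g2, g3⟩ := (step k L (st k L) v).choose_spec.choose_spec h1 hl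
    refine ⟨g3, fun u M h => ?_⟩
    rcases List.suffix_cons_iff.1 h with e | e
    · obtain ⟨rfl, rfl⟩ := List.cons.inj e
      simp only [st, sg, Function.update_self]
      exact g2.2
    · have := h2 u M e
      by_cases hc : sg k (u :: M) = (step k L (st k L) v).choose
      · rw [hc] at this
        rw [hc]
        simp only [st, Function.update_self]
        exact (g2.1 u this).2
      · simp only [st]
        rwa [Function.update_of_ne hc]

theorem proper {k : ℕ} {v : Fin 5} {L : List (Fin 5)} (hl : Legal k (v :: L)) :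
    sg k (v :: L) < 5 * k ∧ ∀ u M, (u :: M) <:+ L → conf u v → sg k (u :: M) ≠ sg k (v :: L) := by
  obtain ⟨h1, h2⟩ := inv k L (legal_suf (List.suffix_cons v L) hl)
  obtain ⟨g1, g2, _⟩ := (step k L (st k L) v).choose_spec.choose_spec h1 hl
  refine ⟨g1, fun u M h hc e => ?_⟩
  have := h2 u M h
  rw [e] at this
  exact (g2.1 u this).1 hc

theorem card_filter_list (p : Fin 5 → Bool) (L : List (Fin 5)) :
    (univ.filter fun i : Fin L.length => p L[i] = true).card = L.countP p := by
  induction L with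
  | nil => simp
  | cons v L ih =>
    rw [List.countP_cons, ← ih]
    have := Fin.card_filter_univ_succ' (fun i : Fin (L.length + 1) => p (v :: L)[i] = true)
    simp only [List.length_cons] at this ⊢
    rw [this, add_comm]
    simp
    all_goals congr

theorem clique_le {w : ℕ} {L : List (Fin 5)} (h : (tokenGraph house L).Colorable w)
    (p : Fin 5 → Bool) (hp : ∀ u v, p u = true → p v = true → conf u v) : L.countP p ≤ w := by
  obtain ⟨c⟩ := h
  rw [← card_filter_list]
  refine (card_le_card_of_injOn (t := univ) c (by simp) ?_).trans (by simp)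
  intro i hi j hj e
  by_contra hne
  refine c.valid (v := i) (w := j) ?_ e
  rw [tokenGraph, SimpleGraph.fromRel_adj]
  exact ⟨hne, Or.inl ((conf_iff _ _).1 (hp _ _ (by simpa using hi) (by simpa using hj)))⟩

theorem legal_of {w k : ℕ} (hw : w ≤ 4 * k) {L : List (Fin 5)}
    (h : (tokenGraph house L).Colorable w) : Legal k L := by
  have a1 := clique_le h (fun u => u == 0 || u == 1 || u == 2) (by decide)
  have a2 := clique_le h (fun u => u == 0 || u == 4) (by decide)
  have a3 := clique_le h (fun u => u == 3 || u == 4) (by decide)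
  have a4 := clique_le h (fun u => u == 3 || u == 2) (by decide)
  have e : ∀ L : List (Fin 5),
      L.countP (fun u => u == 0 || u == 1 || u == 2) = L.count 0 + L.count 1 + L.count 2 ∧
      L.countP (fun u => u == 0 || u == 4) = L.count 0 + L.count 4 ∧
      L.countP (fun u => u == 3 || u == 4) = L.count 3 + L.count 4 ∧
      L.countP (fun u => u == 3 || u == 2) = L.count 3 + L.count 2 := by
    intro L
    induction L with
    | nil => simp
    | cons v L ih =>
      simp only [List.countP_cons, List.count_cons]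
      fin_cases v <;> simp <;> omega
  have := e L
  unfold Legal; omega

theorem upper {w k : ℕ} (hw : w ≤ 4 * k) : Guarantees house w (5 * k) := by
  refine ⟨sg k, fun L h => ?_⟩
  have hl := legal_of hw h
  have P : ∀ i : Fin L.length, sg k (L.drop i) < 5 * k ∧ ∀ u M, (u :: M) <:+ L.drop (i + 1) →
      conf u L[i] → sg k (u :: M) ≠ sg k (L.drop i) := by
    intro i
    have e : L.drop i = L[i] :: L.drop (i + 1) := List.drop_eq_getElem_cons i.2
    have := proper (e ▸ legal_suf (List.drop_suffix i L) hl)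
    rwa [← e] at this
  have Q : ∀ i j : Fin L.length, i < j → conf L[j] L[i] →
      sg k (L.drop j) ≠ sg k (L.drop i) := by
    intro i j hij hc
    have e : L.drop j = L[j] :: L.drop (j + 1) := List.drop_eq_getElem_cons j.2
    have := (P i).2 _ _ (e ▸ List.drop_suffix_drop_left L (show i.val + 1 ≤ j from hij)) hc
    rwa [← e] at this
  have S : ∀ u v, conf u v → conf v u := by decide
  refine ⟨fun i j hij => ?_, ?_⟩
  · rw [tokenGraph, SimpleGraph.fromRel_adj, ← conf_iff, ← conf_iff] at hij
    have hc : conf L[i] L[j] := hij.2.elim id (S _ _)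
    rcases lt_or_gt_of_ne hij.1 with h | h
    · exact (Q i j h (S _ _ hc)).symm
    · exact Q j i h hc
  · refine (card_le_card (t := range (5 * k)) ?_).trans (by simp)
    intro x hx
    obtain ⟨i, _, rfl⟩ := mem_image.1 hx
    exact mem_range.2 (P i).1

def g (k : ℕ) (z : Fin 5) (i : ℕ) : Fin 5 :=
  if i < 2 * k then z else if i < 4 * k then 4 else if i < 6 * k then 3 else 1

def pl (k : ℕ) (z : Fin 5) : List (Fin 5) := (List.range (8 * k)).map (g k z)

theorem pl_len (k : ℕ) (z : Fin 5) : (pl k z).length = 8 * k := by simp [pl]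

theorem pl_get (k : ℕ) (z : Fin 5) (i : Fin (pl k z).length) : (pl k z)[i] = g k z i := by
  have h : ∀ (j : ℕ) (hj : j < ((List.range (8 * k)).map (g k z)).length),
      ((List.range (8 * k)).map (g k z))[j] = g k z j := by simp
  exact h i.val i.2

theorem pl_adj {k : ℕ} {z : Fin 5} {i j : Fin (pl k z).length} :
    (tokenGraph house (pl k z)).Adj i j ↔ i.val ≠ j.val ∧ conf (g k z i) (g k z j) := by
  have S : ∀ u v, conf u v → conf v u := by decide
  rw [tokenGraph, SimpleGraph.fromRel_adj, ← conf_iff, ← conf_iff, pl_get, pl_get]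
  exact ⟨fun h => ⟨fun e => h.1 (Fin.ext e), h.2.elim id (S _ _)⟩,
    fun h => ⟨fun e => h.1 (congrArg _ e), Or.inl h.2⟩⟩

theorem pl_drop (k j : ℕ) (hj : 2 * k ≤ j) : (pl k 2).drop j = (pl k 0).drop j := by
  refine List.ext_getElem (by simp [pl]) fun i _ _ => ?_
  simp only [pl, List.getElem_drop, List.getElem_map, List.getElem_range, g]
  rw [if_neg (by omega), if_neg (show ¬ j + i < 2 * k by omega)]

theorem pl_col {k w : ℕ} (hw : 4 * k ≤ w) (z : Fin 5) (hz : z = 0 ∨ z = 2) :
    (tokenGraph house (pl k z)).Colorable w := by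
  refine ⟨SimpleGraph.Coloring.mk (fun i => ⟨if i.val < 2 * k then i.val else
    if i.val < 4 * k then (if z = 0 then i.val else i.val - 2 * k) else
    if i.val < 6 * k then (if z = 0 then i.val - 4 * k else i.val - 2 * k) else i.val - 4 * k,
    ?_⟩) ?_⟩
  · have := i.2.trans_eq (pl_len k z)
    split_ifs <;> omega
  · intro i j h e
    rw [pl_adj] at h
    obtain ⟨h1, h2⟩ := h
    have := i.2.trans_eq (pl_len k z)
    have := j.2.trans_eq (pl_len k z)
    simp only [Fin.mk.injEq] at e
    unfold g at h2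
    rcases hz with rfl | rfl <;> simp only [Fin.reduceEq, if_true, if_false] at e <;>
      split_ifs at h2 e <;> first | omega | exact absurd h2 (by decide)

theorem lower {k w m : ℕ} (hw : 4 * k ≤ w) (h : Guarantees house w m) : 5 * k ≤ m := by
  obtain ⟨s, hs⟩ := h
  have H : ∀ z : Fin 5, z = 0 ∨ z = 2 → (∀ i j, i < 8 * k → j < 8 * k → i ≠ j →
      conf (g k z i) (g k z j) → s ((pl k z).drop i) ≠ s ((pl k z).drop j)) ∧
      ∀ T : Finset ℕ, (∀ x ∈ T, ∃ i < 8 * k, s ((pl k z).drop i) = x) → T.card ≤ m := by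
    intro z hz
    obtain ⟨h1, h2⟩ := hs _ (pl_col hw z hz)
    refine ⟨fun i j hi hj hne hc => h1 ⟨i, by rwa [pl_len]⟩ ⟨j, by rwa [pl_len]⟩
      (pl_adj.2 ⟨hne, hc⟩), fun T hT => (card_le_card fun x hx => ?_).trans h2⟩
    obtain ⟨i, hi, e⟩ := hT x hx
    exact mem_image.2 ⟨⟨i, by rwa [pl_len]⟩, mem_univ _, e⟩
  let I : Fin 5 → ℕ → Finset ℕ := fun z b =>
    (Ico (2 * b * k) (2 * b * k + 2 * k)).image fun i => s ((pl k z).drop i)
  have G : ∀ z b i, i ∈ Ico (2 * b * k) (2 * b * k + 2 * k) → b < 4 → i < 8 * k ∧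
      g k z i = if b = 0 then z else if b = 1 then 4 else if b = 2 then 3 else 1 := by
    intro z b i hi hb
    rw [mem_Ico] at hi
    unfold g
    interval_cases b <;> split_ifs <;> first | contradiction | omega
  have cd : ∀ z, z = 0 ∨ z = 2 → ∀ b < 4, (I z b).card = 2 * k := by
    intro z hz b hb
    rw [card_image_of_injOn, Nat.card_Ico]
    · omega
    intro i hi j hj e
    by_contra hne
    refine (H z hz).1 i j (G z b i hi hb).1 (G z b j hj hb).1 hne ?_ e
    rw [(G z b i hi hb).2, (G z b j hj hb).2]; exact Or.inl rfl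
  have dj : ∀ z, z = 0 ∨ z = 2 → ∀ b < 4, ∀ b' < 4, b < b' →
      conf (if b = 0 then z else if b = 1 then 4 else if b = 2 then 3 else 1)
        (if b' = 0 then z else if b' = 1 then 4 else if b' = 2 then 3 else 1) →
      Disjoint (I z b) (I z b') := by
    intro z hz b hb b' hb' hlt hc
    rw [disjoint_left]
    intro x h1 h2
    obtain ⟨i, hi, rfl⟩ := mem_image.1 h1
    obtain ⟨j, hj, e⟩ := mem_image.1 h2
    refine (H z hz).1 i j (G z b i hi hb).1 (G z b' j hj hb').1 ?_ ?_ e.symm
    · rw [mem_Ico] at hi hj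
      have : 2 * (b + 1) * k ≤ 2 * b' * k := by gcongr; omega
      nlinarith [hi.2, hj.1]
    · rwa [(G z b i hi hb).2, (G z b' j hj hb').2]
  have eq : ∀ b, 1 ≤ b → I 2 b = I 0 b := fun b hb => image_congr fun i hi => by
    have := (mem_Ico.1 hi).1
    simp only [pl_drop k i (by nlinarith)]
  have sub : ∀ z, z = 0 ∨ z = 2 → ∀ b < 4, (I z 0 ∪ (I z b ∪ I z 3)).card ≤ m := by
    intro z hz b hb
    refine (H z hz).2 _ fun x hx => ?_
    simp only [mem_union] at hx
    rcases hx with hx | hx | hx <;> obtain ⟨i, hi, e⟩ := mem_image.1 hx <;>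
      exact ⟨i, (G z _ i hi (by omega)).1, e⟩
  have z0 : (0 : Fin 5) = 0 ∨ (0 : Fin 5) = 2 := Or.inl rfl
  have z2 : (2 : Fin 5) = 0 ∨ (2 : Fin 5) = 2 := Or.inr rfl
  have s1 := sub 0 z0 1 (by omega)
  have s2 := sub 2 z2 2 (by omega)
  rw [card_union_of_disjoint (disjoint_union_right.2 ⟨dj 0 z0 0 (by omega) 1 (by omega)
    (by omega) (by decide), dj 0 z0 0 (by omega) 3 (by omega) (by omega) (by decide)⟩),
    cd 0 z0 0 (by omega)] at s1
  rw [card_union_of_disjoint (disjoint_union_right.2 ⟨dj 2 z2 0 (by omega) 2 (by omega)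
    (by omega) (by decide), dj 2 z2 0 (by omega) 3 (by omega) (by omega) (by decide)⟩),
    cd 2 z2 0 (by omega), eq 2 (by omega), eq 3 (by omega)] at s2
  have u1 := card_union_add_card_inter (I 0 1) (I 0 3)
  have u2 := card_union_add_card_inter (I 0 2) (I 0 3)
  have d12 := dj 0 z0 1 (by omega) 2 (by omega) (by omega) (by decide)
  have u3 : (I 0 1 ∩ I 0 3).card + (I 0 2 ∩ I 0 3).card ≤ (I 0 3).card := by
    rw [← card_union_of_disjoint (d12.mono inter_subset_left inter_subset_left)]
    exact card_le_card (union_subset inter_subset_right inter_subset_right)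
  have c1 := cd 0 z0 1 (by omega)
  have c2 := cd 0 z0 2 (by omega)
  have c3 := cd 0 z0 3 (by omega)
  omega

theorem result : (∀ w, Guarantees house w (f w house) ∧ 5 * (w / 4) ≤ f w house ∧
      f w house ≤ 5 * ((w + 3) / 4)) ∧
    Tendsto (fun w : ℕ => (f w house : ℝ) / w) atTop (𝓝 (5 / 4)) := by
  have B : ∀ w, Guarantees house w (f w house) ∧ 5 * (w / 4) ≤ f w house ∧
      f w house ≤ 5 * ((w + 3) / 4) := by
    intro w
    have hu : Guarantees house w (5 * ((w + 3) / 4)) := upper (by omega)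
    have hm : Guarantees house w (f w house) :=
      Nat.sInf_mem (s := {m | Guarantees house w m}) ⟨_, hu⟩
    exact ⟨hm, lower (by omega) hm, Nat.sInf_le hu⟩
  refine ⟨B, ?_⟩
  have t := tendsto_const_div_atTop_nhds_zero_nat (4 : ℝ)
  have t1 := (tendsto_const_nhds (x := (5 / 4 : ℝ))).sub t
  have t2 := (tendsto_const_nhds (x := (5 / 4 : ℝ))).add t
  rw [sub_zero] at t1
  rw [add_zero] at t2
  refine tendsto_of_tendsto_of_tendsto_of_le_of_le' t1 t2 ?_ ?_ <;>
    filter_upwards [eventually_gt_atTop 0] with w hw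
  · have h1 : 5 * w ≤ 4 * f w house + 16 := by have := (B w).2.1; omega
    have h2 : (5 * w : ℝ) ≤ 4 * f w house + 16 := by exact_mod_cast h1
    have h3 : (0 : ℝ) < w := by exact_mod_cast hw
    rw [le_div_iff₀ h3, sub_mul, div_mul_cancel₀ _ h3.ne']
    linarith
  · have h1 : 4 * f w house ≤ 5 * w + 16 := by have := (B w).2.2; omega
    have h2 : (4 * f w house : ℝ) ≤ 5 * w + 16 := by exact_mod_cast h1
    have h3 : (0 : ℝ) < w := by exact_mod_cast hw
    rw [div_le_iff₀ h3, add_mul, div_mul_cancel₀ _ h3.ne']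
    linarith

end Pool.Agent.Results.MP_f00a0c_co.FiveFourths
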